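import Pool.Agent.X189.BS.Stm

/-! # Project BS, part B -/

set_option autoImplicit false

namespace Pool.Agent.X73.BS

open Equiv Pool.Agent.X189.BS

lemma labs_append {n : ℕ} (u : Perm (Fin (n + 1))) (R : List (Fin n)) (i : Fin n) :
    labs u (R ++ [i]) = labs u R ++ [((u * wprod R) i.castSucc, (u * wprod R) i.succ)] := by
  induction R generalizing u with
  | nil => simp [labs, wprod]
  | cons j R ih =>
    rw [List.cons_append, labs, labs, ih, List.cons_append]
    have : u * sg j * wprod R = u * wprod (j :: R) := by
      simp [wprod, mul_assoc]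
    rw [this]

lemma sg_mul_self {n : ℕ} (i : Fin n) : sg i * sg i = 1 := by
  simp [sg]

theorem t_B : S_B := by
  intro n q R
  induction R using List.reverseRecOn with
  | nil =>
    intro g
    simp [coef, C, labs, wprod]
  | append_singleton R i ih =>
    intro g
    have hw : wprod (R ++ [i]) = wprod R * sg i := by simp [wprod]
    rw [hw, labs_append, one_mul]
    set u := wprod R with hu
    have h1 : coef q (R ++ [i]) (g⁻¹ * (u * sg i)) = hstep q (coef q R) i (g⁻¹ * (u * sg i)) := by
      simp [coef]
    have h2 : C q (labs 1 R ++ [(u i.castSucc, u i.succ)]) g =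
        cstep q (C q (labs 1 R)) (u i.castSucc, u i.succ) g := by
      simp [C]
    rw [h1, h2]
    have e1 : (g⁻¹ * (u * sg i)) i.castSucc = g.symm (u i.succ) := by
      simp [sg]
    have e2 : (g⁻¹ * (u * sg i)) i.succ = g.symm (u i.castSucc) := by
      simp [sg]
    have e3 : g⁻¹ * (u * sg i) * sg i = g⁻¹ * u := by
      rw [mul_assoc, mul_assoc, sg_mul_self, mul_one]
    have e4 : g⁻¹ * (u * sg i) = (swap (u i.castSucc) (u i.succ) * g)⁻¹ * u := by
      have h3 : u * sg i = swap (u i.castSucc) (u i.succ) * u := by
        rw [Equiv.swap_apply_apply]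
        simp [sg, mul_assoc]
      rw [h3, mul_inv_rev, Equiv.swap_inv, mul_assoc]
    have h5 : coef q R (g⁻¹ * (u * sg i)) =
        C q (labs 1 R) (swap (u i.castSucc) (u i.succ) * g) := by
      rw [e4]
      exact ih _
    unfold hstep cstep
    rw [e1, e2, e3, ih g, h5]

end Pool.Agent.X73.BS
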